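import Pool.Agent.H930R3.BK.X4

/-!
# A sharp lower bound for the central value of a quadratic L-function

Let `χ` be a nontrivial quadratic Dirichlet character, `P(x) = ∏_{p ≤ x} (1 - χ(p)/√p)⁻¹` its partial Euler
products at the central point, `m` the order of `L(s,χ)` at `s = 1/2` and `c = lim L(s,χ)/(s - 1/2) ^ m`.
The deep Riemann hypothesis (Kuo-Murty, Conrad, Kimura-Koyama-Kurokawa) says that
`P(x) (e ^ γ log x) ^ m → √2 c`; it is stronger than the generalized Riemann hypothesis. We prove its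
one-sided form unconditionally, for every `χ`:

`liminf P(x) (e ^ γ log x) ^ m ≤ √2 |c|`, even for the logarithmic means of the logarithms,

and the opposite inequality for the upper limits if `L(s,χ)` has no zero in `(1/2,1)`. Consequently a
positive lower bound `P(x) ≥ A` for all large `x` (or only for the logarithmic means) implies that
`L(s,χ) > 0` for all `0 < s < 1`, and the explicit and sharp bound `L(1/2,χ) ≥ A/√2`.

Proof. `F(s) = L(s - 1/2,χ)²` is an Euler product of degree two with `α_p = χ(p) √p`; if the means of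
`log P` were too large, then `F = exp (W + (s - 1)² D)` for `Re s > 1`, with `W` holomorphic and
explicit near `s = 1` (the constant `e ^ γ` and the factor `√2` come from the theorems of Mertens
for `∑ 1/p` over `p ≤ x` and over `√x < p ≤ x`) and `D` a Dirichlet series with nonnegative coefficients
(Landau), and `s → 1+` gives a contradiction. Used: the library
`Pool.Agent.H234R4.Dir` of `PrimeSumsAtHalf` (helper234) and `Pool.Agent.H438R3.BSD` (helper438).
-/

set_option autoImplicit false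

open Filter Topology

namespace Pool.Agent.Results.MP_0016c7_nt.CentralProducts

open Pool.Agent.H930R3.BK.Chi

/-- The one-sided form, with the exact constant, of the asymptotic formula for the partial Euler products at the
central point, and the lower bound for the central value. -/
theorem result (N : ℕ) [NeZero N] (χ : DirichletCharacter ℂ N) (h1 : χ ≠ 1) (h2 : χ ^ 2 = 1) :
    (∃ (m : ℕ) (c : ℂ), analyticOrderAt χ.LFunction (1 / 2) = m ∧ c ≠ 0 ∧
      Tendsto (fun s : ℂ => χ.LFunction s / (s - 1 / 2) ^ m) (𝓝[≠] (1 / 2)) (𝓝 c) ∧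
      ∀ δ : ℝ, 0 < δ →
        ((∃ᶠ x : ℕ in atTop, NL χ m ‖c‖ x < δ) ∧ ∃ᶠ x : ℕ in atTop, NP χ m ‖c‖ x < 1 + δ) ∧
        ((∀ σ : ℝ, 1 / 2 < σ → σ < 1 → χ.LFunction σ ≠ 0) →
          (∃ᶠ x : ℕ in atTop, -δ < NL χ m ‖c‖ x) ∧ ∃ᶠ x : ℕ in atTop, 1 - δ < NP χ m ‖c‖ x)) ∧
    ∀ A : ℝ, 0 < A →
      ((∀ᶠ x : ℕ in atTop, A ≤ PP χ x) ∨
        ∀ η : ℝ, 0 < η → ∀ᶠ x : ℕ in atTop, Real.log A - η ≤ PL χ x) →
      (∀ ρ : ℂ, 1 / 2 < ρ.re → χ.LFunction ρ ≠ 0) ∧
      (∀ s : ℝ, 0 < s → s < 1 →
        (χ.LFunction (s : ℂ)).im = 0 ∧ 0 < (χ.LFunction (s : ℂ)).re) ∧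
      A ≤ Real.sqrt 2 * (χ.LFunction (1 / 2)).re := by
  refine ⟨central_main χ h1 h2, fun A hA h => ?_⟩
  rcases h with h | h
  · obtain ⟨h3, h4, h5⟩ := lower_point χ h1 h2 A hA h
    exact ⟨h3, fun s hs _ => h4 s hs, h5⟩
  · obtain ⟨h3, h4, h5⟩ := lower_mean χ h1 h2 A hA h
    exact ⟨h3, fun s hs _ => h4 s hs, h5⟩

end Pool.Agent.Results.MP_0016c7_nt.CentralProducts
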