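import Mathlib
import Pool.Agent.H232R3.OneI

/-!
# Real characters: the central value and one-sided square-root bounds

Let `χ` be a real nonprincipal character modulo `q` and let `f` be a completely multiplicative function above
`-χ`: `-χ(p) ≤ f(p) ≤ 1` for all primes `p`.  Put `S(N) = ∑_{n ≤ N} f(n)`.

* If `S(N) ≤ c √N + K` for all `N ≥ 1`, then
  `c L(1/2,χ) ≥ (φ(q)/q) ∏_{p < M} (1 + χ(p)/√p) / (1 - f(p)/√p)` for every `M`, where all factors are `≥ 1`;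
  hence `c > 0`, `L(1/2,χ) ≥ φ(q)/(q c) > 0`, the series `∑_p (f(p) + χ(p))/√p` converges, `L(σ,χ) > 0` for all
  real `σ ∈ (0,1)` and all zeros of `L(s,χ)` in the open critical strip lie on `Re s = 1/2`.
* Unconditionally, for every `c`, `K` and `N₀` there is `N ≥ N₀` with `S(N) > c √N + K` as soon as
  `c L(1/2,χ) < (φ(q)/q) ∏_{p < M} (1 + χ(p)/√p) / (1 - f(p)/√p)` for some `M`, or `∑_p (f(p) + χ(p))/√p = ∞`, or
  `L(s,χ)` has a real zero in `(0,1)`, or a zero in the open critical strip off the critical line.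

For `f = λχ` the product is `1` and `(φ(q)/q)/L(1/2,χ)` is the logarithmic mean of `S(N)/√N`, if there is one, so
that the constant is best possible in its form.

Proof.  `G(s) = ∑ g(n) n^(-s)`, `g = f * χ ≥ 0`, converges for `Re s > 1/2` by the one-sided Landau argument of
`OneSidedCancellation`; there `G(σ) = F(σ) L(σ,χ)`, `F(σ) ≤ cσ/(σ-1/2) + K`, and the Euler product of `G` gives
`G(σ) ≥ ζ(2σ) ∏_{p | q} (1-p^(-2σ)) ∏_{p < M} (1+χ(p)p^(-σ))/(1-f(p)p^(-σ))`.  Let `σ → 1/2`.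
-/

set_option autoImplicit false

namespace Pool.Agent.Results.MP_0016c7_nt.CentralValue

/-- `f` is completely multiplicative on the positive integers and `-χ(p) ≤ f(p) ≤ 1` for all primes `p`. -/
def Above {q : ℕ} (χ : DirichletCharacter ℂ q) (f : ℕ → ℝ) : Prop :=
  f 1 = 1 ∧ (∀ m n : ℕ, 0 < m → 0 < n → f (m * n) = f m * f n) ∧
  ∀ p : ℕ, p.Prime → -(χ p).re ≤ f p ∧ f p ≤ 1

/-- The product `∏_{p < M} (1 + χ(p)/√p) / (1 - f(p)/√p)` over the primes `p < M`. -/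
noncomputable def Pr {q : ℕ} (χ : DirichletCharacter ℂ q) (f : ℕ → ℝ) (M : ℕ) : ℝ :=
  ∏ p ∈ Nat.primesBelow M, (1 + (χ p).re / Real.sqrt p) / (1 - f p / Real.sqrt p)

theorem above_imp {q : ℕ} [NeZero q] (χ : DirichletCharacter ℂ q) (f : ℕ → ℝ) (h : Above χ f) :
    Pool.H232R3.One.Above χ f := by
  obtain ⟨a, b, c⟩ := h
  refine ⟨a, b, fun p hp => (c p hp).2, fun p hp => ?_, fun p hp => (c p hp).1⟩
  have h1 : (χ p).re ≤ 1 := (Complex.re_le_norm _).trans (χ.norm_le_one _)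
  linarith [(c p hp).1]

theorem pr_eq {q : ℕ} (χ : DirichletCharacter ℂ q) (f : ℕ → ℝ) (M : ℕ) :
    Pr χ f M = ∏ p ∈ Nat.primesBelow M, Pool.H232R3.One.Hf (f p) (χ p).re (1 / Real.sqrt p) := by
  unfold Pr Pool.H232R3.One.Hf
  simp_rw [mul_one_div]

theorem result {q : ℕ} [NeZero q] (χ : DirichletCharacter ℂ q) (h1 : χ ≠ 1) (h2 : χ ^ 2 = 1)
    (f : ℕ → ℝ) (hf : Above χ f) :
    -- all factors of the product are at least one
    (∀ p : ℕ, p.Prime → 1 ≤ (1 + (χ p).re / Real.sqrt p) / (1 - f p / Real.sqrt p)) ∧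
    -- a one-sided square-root bound controls the central value, `f` and all zeros
    (∀ c K : ℝ, (∀ N : ℕ, 1 ≤ N → ∑ n ∈ Finset.Icc 1 N, f n ≤ c * Real.sqrt N + K) →
      0 < c ∧
      (∀ M : ℕ, (Nat.totient q : ℝ) / q * Pr χ f M ≤ c * (χ.LFunction (1 / 2)).re) ∧
      (Summable fun p : Nat.Primes => (f p + (χ (p : ℕ)).re) / Real.sqrt (p : ℕ)) ∧
      (∀ σ : ℝ, 0 < σ → σ < 1 → (χ.LFunction σ).im = 0 ∧ 0 < (χ.LFunction σ).re) ∧
      (∀ s : ℂ, 0 < s.re → s.re < 1 → χ.LFunction s = 0 → s.re = 1 / 2)) ∧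
    -- unconditional oscillation
    (∀ (c K : ℝ) (N₀ : ℕ),
      ((∃ M : ℕ, c * (χ.LFunction (1 / 2)).re < (Nat.totient q : ℝ) / q * Pr χ f M) ∨
        (¬ Summable fun p : Nat.Primes => (f p + (χ (p : ℕ)).re) / Real.sqrt (p : ℕ)) ∨
        (∃ σ : ℝ, 0 < σ ∧ σ < 1 ∧ χ.LFunction σ = 0) ∨
        (∃ s : ℂ, 0 < s.re ∧ s.re < 1 ∧ χ.LFunction s = 0 ∧ s.re ≠ 1 / 2)) →
      ∃ N : ℕ, N₀ ≤ N ∧ c * Real.sqrt N + K < ∑ n ∈ Finset.Icc 1 N, f n) := by
  have hf' := above_imp χ f hf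
  have hhalf : ((1 / 2 : ℝ) : ℂ) = 1 / 2 := by push_cast; rfl
  have main : ∀ c K : ℝ, (∀ N : ℕ, 1 ≤ N → ∑ n ∈ Finset.Icc 1 N, f n ≤ c * Real.sqrt N + K) →
      0 < c ∧
      (∀ M : ℕ, (Nat.totient q : ℝ) / q * Pr χ f M ≤ c * (χ.LFunction (1 / 2)).re) ∧
      (Summable fun p : Nat.Primes => (f p + (χ (p : ℕ)).re) / Real.sqrt (p : ℕ)) ∧
      (∀ σ : ℝ, 0 < σ → σ < 1 → (χ.LFunction σ).im = 0 ∧ 0 < (χ.LFunction σ).re) ∧
      (∀ s : ℂ, 0 < s.re → s.re < 1 → χ.LFunction s = 0 → s.re = 1 / 2) := by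
    intro c K hS
    obtain ⟨hc, _, hall⟩ := Pool.H232R3.One.central_prod χ h1 h2 f hf' c K hS
    obtain ⟨hz, hpos⟩ := Pool.H232R3.One.zeros χ h1 h2 f hf' c K hS
    refine ⟨hc, fun M => ?_, Pool.H232R3.One.rigid χ h1 h2 f hf' c K hS, hpos, hz⟩
    rw [pr_eq, ← hhalf]
    exact hall M
  refine ⟨fun p hp => ?_, main, ?_⟩
  · have hp1 : (1 : ℝ) < p := by exact_mod_cast hp.one_lt
    have hs1 : 1 < Real.sqrt p := by
      rw [Real.lt_sqrt (by norm_num)]; simpa using hp1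
    have hs0 : 0 < Real.sqrt p := by linarith
    have hyabs : |(χ p).re| ≤ 1 := (Complex.abs_re_le_norm _).trans (χ.norm_le_one _)
    have h3 := Pool.H232R3.One.one_le_Hf (f p) (χ p).re (1 / Real.sqrt p)
      (Pool.H232R3.One.f_abs χ f hf' p hp.pos) hyabs (hf'.ge p hp) (by positivity)
      (by rw [div_lt_one hs0]; exact hs1)
    unfold Pool.H232R3.One.Hf at h3
    rwa [mul_one_div, mul_one_div] at h3
  · intro c K N₀ hor
    by_contra hcon
    push Not at hcon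
    have hS := Pool.H232R3.One.all_of_large χ f hf' c K N₀ hcon
    obtain ⟨_, hM, hsum, hpos, hz⟩ := main c _ hS
    rcases hor with ⟨M, hlt⟩ | hns | ⟨σ, h0, h3, hzero⟩ | ⟨s, h0, h3, hzero, hne⟩
    · exact absurd (hM M) (not_le.mpr hlt)
    · exact hns hsum
    · have := (hpos σ h0 h3).2
      rw [hzero] at this
      simp at this
    · exact hne (hz s h0 h3 hzero)

end Pool.Agent.Results.MP_0016c7_nt.CentralValue
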