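import Mathlib
import Pool.Agent.H232R3.OneF

/-!
# Real characters: one-sided cancellation for functions above `-χ`

Let `χ` be a real nonprincipal character.  Consider the completely multiplicative functions `f` with values in
`[-1,1]` that lie above `-χ` at the primes: `f(p) = 1` if `χ(p) = -1`, `f(p) ∈ [0,1]` if `χ(p) = 0` and
`f(p) ∈ [-1,1]` arbitrary if `χ(p) = 1`.  We show that a *one-sided* power saving
`∑_{n ≤ N} f(n) ≤ C N^θ` for a single such `f` implies `L(σ,χ) ≥ (σ-θ)/(Cσ)` for all real `σ > θ` and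
`L(s,χ) ≠ 0` for all complex `s` with `Re s > θ`; and that this is an equivalence on the level of exponents.
In particular the generalized Riemann hypothesis for `χ` (hence `L(σ,χ) ≠ 0` for real `σ ∈ (0,1)`, `σ ≠ 1/2`)
is equivalent to the one-sided bound `∑_{n ≤ N} f(n) ≤ C_ε N^(1/2+ε)` for one such `f`.

Proof.  Let `g = f * χ ≥ 0` and `G(s) = F(s) L(s,χ) = ∑ g(n) n^(-s)`.  Let `P(x) = C x^θ - ∑_{n ≤ x} f(n) ≥ 0`
and `A(x) = ∑_{n ≤ x} g(n) ≥ 0`.  Their Mellin transforms satisfy `Â + L P̂ = C L/(s-θ)` (up to the rounding of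
`x`).  Let `K > θ` be the common abscissa of convergence.  As long as both converge, `G(σ) ≥ 1` and
`F(σ) ≤ Cσ/(σ-θ)` give `L(σ) ≥ (σ-θ)/(Cσ)`, so `L(K) > 0`.  Comparing the Taylor coefficients of the identity at
a point slightly to the right of `K`, where those of `Â` and `P̂` are nonnegative and the constant term of `L` is
positive, shows that both converge to the left of `K`, a contradiction.  (Landau's theorem is not applicable
since `L P̂` is not the transform of a nonnegative function.)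
-/

set_option autoImplicit false

namespace Pool.Agent.Results.MP_0016c7_nt.OneSidedCancellation

/-- `f` is completely multiplicative on the positive integers and `-χ(p) ≤ f(p) ≤ 1` for all primes `p`. -/
def Above {q : ℕ} (χ : DirichletCharacter ℂ q) (f : ℕ → ℝ) : Prop :=
  f 1 = 1 ∧ (∀ m n : ℕ, 0 < m → 0 < n → f (m * n) = f m * f n) ∧
  ∀ p : ℕ, p.Prime → -(χ p).re ≤ f p ∧ f p ≤ 1

/-- One-sided bound `∑_{n ≤ N} f(n) ≤ C_ε N^(θ + ε)` for every `ε > 0`. -/
def OneSided (f : ℕ → ℝ) (θ : ℝ) : Prop :=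
  ∀ ε : ℝ, 0 < ε → ∃ C : ℝ, ∀ N : ℕ, 1 ≤ N → ∑ n ∈ Finset.Icc 1 N, f n ≤ C * (N : ℝ) ^ (θ + ε)

theorem above_iff {q : ℕ} [NeZero q] (χ : DirichletCharacter ℂ q) (f : ℕ → ℝ) :
    Above χ f ↔ Pool.H232R3.One.Above χ f := by
  constructor
  · rintro ⟨a, b, c⟩
    refine ⟨a, b, fun p hp => (c p hp).2, fun p hp => ?_, fun p hp => (c p hp).1⟩
    have h1 : (χ p).re ≤ 1 := (Complex.re_le_norm _).trans (χ.norm_le_one _)
    linarith [(c p hp).1]
  · intro h
    exact ⟨h.one, h.mul, fun p hp => ⟨h.ge p hp, h.le p hp⟩⟩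

theorem result {q : ℕ} [NeZero q] (χ : DirichletCharacter ℂ q) (h1 : χ ≠ 1) (h2 : χ ^ 2 = 1) :
    -- one-sided cancellation gives an explicit lower bound and a zero-free half-plane
    (∀ f : ℕ → ℝ, Above χ f → ∀ C θ : ℝ, 0 ≤ θ → θ < 1 →
      (∀ N : ℕ, 1 ≤ N → ∑ n ∈ Finset.Icc 1 N, f n ≤ C * (N : ℝ) ^ θ) →
      (∀ σ : ℝ, θ < σ → (χ.LFunction σ).im = 0 ∧ (σ - θ) / (C * σ) ≤ (χ.LFunction σ).re) ∧
      (∀ s : ℂ, θ < s.re → χ.LFunction s ≠ 0) ∧
      (∀ s : ℂ, 0 < s.re → s.re < 1 → χ.LFunction s = 0 → 1 - θ ≤ s.re ∧ s.re ≤ θ)) ∧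
    -- the exponent of the best one-sided bound is the supremum of the real parts of the zeros
    (∀ θ : ℝ, 1 / 2 ≤ θ → θ < 1 →
      ((∀ s : ℂ, θ < s.re → χ.LFunction s ≠ 0) ↔ ∃ f : ℕ → ℝ, Above χ f ∧ OneSided f θ)) ∧
    -- the generalized Riemann hypothesis for `χ`
    ((∀ s : ℂ, 0 < s.re → s.re < 1 → χ.LFunction s = 0 → s.re = 1 / 2) ↔
      ∃ f : ℕ → ℝ, Above χ f ∧ OneSided f (1 / 2)) := by
  refine ⟨?_, ?_, ?_⟩
  · intro f hf C θ h0 hθ hC
    rw [above_iff] at hf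
    have hfree := Pool.H232R3.One.L_free χ h1 h2 f hf C θ h0 hθ hC
    refine ⟨fun σ hσ => ⟨?_, Pool.H232R3.One.L_lower χ h1 h2 f hf C θ h0 hθ hC σ hσ⟩, hfree,
      Pool.H232R3.One.strip χ h2 θ hfree⟩
    rw [Pool.H232R3.One.L_real χ h1 h2 σ (by linarith), Complex.ofReal_im]
  · intro θ h0 hθ
    simp_rw [above_iff]
    exact Pool.H232R3.One.equiv_one χ h1 h2 θ h0 hθ
  · simp_rw [above_iff]
    exact Pool.H232R3.One.grh_one χ h1 h2

end Pool.Agent.Results.MP_0016c7_nt.OneSidedCancellation
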