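import Pool.Agent.H234R4.Dir.Final

/-!
# One-sided bounds for the prime sums of a quadratic character at the central point

Let `χ` be a nontrivial quadratic character modulo `N`, `S(x) = ∑_{p ≤ x} χ(p)/√p`, and
`M_κ(x) = (1 / log x) ∑_{2 ≤ n ≤ x} (S(n) + κ log log n) / n`, the logarithmic mean of
`S(n) + κ log log n`.  Let `m` be the order of vanishing of `L(s,χ)` at `s = 1/2`.

* For every `κ < m + 1/2`, both `M_κ(x)` and `S(x) + κ log log x` take arbitrarily large negative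
  values for arbitrarily large `x`; if `L(s,χ)` has a zero with `Re s > 1/2` this holds for every
  real `κ`.
* If `L(s,χ)` has no real zero in `(1/2, 1)`, then for every `κ > m + 1/2` both take arbitrarily
  large positive values for arbitrarily large `x`, and if moreover `L(s,χ)` has a zero with
  `Re s > 1/2`, this holds for every real `κ`.
* Hence a lower bound `M_κ(x) ≥ C` for all large `x`, with one `κ < 3/2` and one `C`, implies the
  generalized Riemann hypothesis for `L(s,χ)` to the right of the line `Re s = 1/2` and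
  `L(s,χ) > 0` for all `0 < s < 1`.
-/

set_option autoImplicit false

open Filter

namespace Pool.Agent.Results.MP_0016c7_nt.PrimeSumsAtHalf

/-- `S(x) = ∑_{p ≤ x} χ(p)/√p`, the sum over the primes up to `x` (the values `χ(p)` of a quadratic
character are real) -/
noncomputable def S {N : ℕ} (χ : DirichletCharacter ℂ N) (x : ℕ) : ℝ :=
  ∑ p ∈ (Finset.Icc 1 x).filter Nat.Prime, (χ (p : ZMod N)).re / Real.sqrt p

/-- the logarithmic mean of `S(n) + κ log log n` over `2 ≤ n ≤ x` -/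
noncomputable def M {N : ℕ} (χ : DirichletCharacter ℂ N) (κ : ℝ) (x : ℕ) : ℝ :=
  (∑ n ∈ Finset.Icc 2 x, (S χ n + κ * Real.log (Real.log n)) / n) / Real.log x

theorem result (N : ℕ) [NeZero N] (χ : DirichletCharacter ℂ N) (h1 : χ ≠ 1) (h2 : χ ^ 2 = 1) :
    ∃ m : ℕ, analyticOrderAt χ.LFunction (1 / 2) = m ∧
    (∀ κ : ℝ, (κ < m + 1 / 2 ∨ ∃ ρ : ℂ, 1 / 2 < ρ.re ∧ χ.LFunction ρ = 0) → ∀ C : ℝ,
      (∃ᶠ x : ℕ in atTop, M χ κ x < C) ∧
      ∃ᶠ x : ℕ in atTop, S χ x + κ * Real.log (Real.log x) < C) ∧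
    ((∀ σ : ℝ, 1 / 2 < σ → σ < 1 → χ.LFunction σ ≠ 0) →
      ∀ κ : ℝ, ((m : ℝ) + 1 / 2 < κ ∨ ∃ ρ : ℂ, 1 / 2 < ρ.re ∧ χ.LFunction ρ = 0) → ∀ C : ℝ,
      (∃ᶠ x : ℕ in atTop, C < M χ κ x) ∧
      ∃ᶠ x : ℕ in atTop, C < S χ x + κ * Real.log (Real.log x)) ∧
    ((∃ κ : ℝ, κ < 3 / 2 ∧ ∃ C : ℝ, ∀ᶠ x : ℕ in atTop, C ≤ M χ κ x) →
      (∀ ρ : ℂ, 1 / 2 < ρ.re → χ.LFunction ρ ≠ 0) ∧
      ∀ s : ℝ, 0 < s → s < 1 →
        (χ.LFunction (s : ℂ)).im = 0 ∧ 0 < (χ.LFunction (s : ℂ)).re) := by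
  obtain ⟨m, hm, hA, hB, hC⟩ := Pool.Agent.H234R4.Dir.main χ h1 h2
  exact ⟨m, hm, hA, hB, fun h => ⟨(hC h).1, fun s hs _ => (hC h).2 s hs⟩⟩

end Pool.Agent.Results.MP_0016c7_nt.PrimeSumsAtHalf
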